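import Pool.Agent.N250.SP.Surf

/-!
# Generic conformal metrics on closed surfaces: convergence of the local statistics is locally uniform

`(M, g)` is a closed surface with a continuous Riemannian metric, `F` a Baire space and `ι : F → C(M)` a continuous map, for
instance the inclusion of the space of the smooth functions `φ` for which the metric `exp φ · g` has negative curvature and
area one. The unfolded levels and all local statistics (nearest neighbour spacings, `n`-point correlations, averages `1 / T`
over the levels `≤ T`) are those of the problem.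

* For every family `ν` of measures, for instance for that of the GOE: the statistics of the generic metric converge to `ν` if
  and only if every nonempty open set of metrics contains a nonempty open set on which a given statistic is within `ε` of `ν`
  for ALL metrics and all large `T`, uniformly. If they do not, then for some test function, some `ε > 0` and some nonempty
  open set, the statistic of the generic metric of this set is further than `ε` from `ν` for arbitrarily large `T`. If they
  do, the metrics with an error larger than `ε` for arbitrarily large `T` form a nowhere dense set.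
* The same equivalence for convergence to a limit which may depend on the metric.
* Alternative for every statistic and every continuous test function: there are disjoint open sets of metrics with dense
  union such that the statistic converges in `[-∞, ∞]` for the generic metric of the first one, and near every metric of the
  second one there are `c < c'` such that for the generic metric the statistic is below `c` and above `c'` for arbitrarily
  large `T`.
-/

set_option autoImplicit false

open Set Filter Topology MeasureTheory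
open scoped Real ContDiff
open Pool.Agent.Y262.QE

noncomputable section

namespace Pool.Agent.Results.MP_a825e8_mp.LocallyUniformStatistics

open Pool.Agent.Results.MP_a825e8_mp.SurfacesLimitStatistics
open Pool.Agent.Q205.Baire (Spectra LocalStat S count nice_S Good main_iff main_dichotomy main_nowhere)
open Pool.Agent.N250.SP (statL S_stat exists_spectra alternative tendsto_ereal cauchy_iff_generic)

/-- all local statistics of `x` converge to `ν` -/
def Converges (ν : ∀ a, Measure (Fin (dim a) → ℝ)) (x : ℕ → ℝ) : Prop :=
  ∀ (a : Option ℕ) (f : (Fin (dim a) → ℝ) → ℝ), Continuous f → HasCompactSupport f →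
    Tendsto (fun T => statistic a f T x) atTop (𝓝 (∫ z, f z ∂(ν a)))

/-- every nonempty open set of parameters contains a nonempty open set on which the statistic is, for all parameters and all
large `T`, within `ε` of `c` -/
def UniformNear {F : Type} [TopologicalSpace F] (x : F → ℕ → ℝ) (a : Option ℕ) (f : (Fin (dim a) → ℝ) → ℝ) (c : ℝ) :
    Prop :=
  ∀ ε : ℝ, 0 < ε → ∀ U : Set F, IsOpen U → U.Nonempty → ∃ V : Set F, IsOpen V ∧ V.Nonempty ∧ V ⊆ U ∧
    ∃ T0 : ℝ, ∀ φ ∈ V, ∀ T, T0 ≤ T → |statistic a f T (x φ) - c| ≤ ε

/-- the same with a constant which depends on the open set -/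
def UniformCauchy {F : Type} [TopologicalSpace F] (x : F → ℕ → ℝ) (a : Option ℕ) (f : (Fin (dim a) → ℝ) → ℝ) : Prop :=
  ∀ ε : ℝ, 0 < ε → ∀ U : Set F, IsOpen U → U.Nonempty → ∃ V : Set F, IsOpen V ∧ V.Nonempty ∧ V ⊆ U ∧
    ∃ c T0 : ℝ, ∀ φ ∈ V, ∀ T, T0 ≤ T → |statistic a f T (x φ) - c| ≤ ε

/-- the statistic is below `c` and above `c'` for arbitrarily large `T` -/
def Oscillates (a : Option ℕ) (f : (Fin (dim a) → ℝ) → ℝ) (c c' : ℝ) (x : ℕ → ℝ) : Prop :=
  (∃ᶠ T in atTop, statistic a f T x < c) ∧ ∃ᶠ T in atTop, c' < statistic a f T x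

theorem result (M : Type) [MetricSpace M] [CompactSpace M] [MeasurableSpace M] [BorelSpace M]
    [Nonempty M] (μ : Measure M) (D : Data M) (hD : D.IsSurf μ)
    (F : Type) [TopologicalSpace F] [BaireSpace F] (ι : F → C(M, ℝ)) (hι : Continuous ι)
    (x : F → ℕ → ℝ) (hx : ∀ φ, IsUnfolded D μ (ι φ) (x φ)) :
    -- given limits, for instance those of the GOE
    (∀ ν : ∀ a, Measure (Fin (dim a) → ℝ), (∀ a, IsFiniteMeasureOnCompacts (ν a)) →
      ((∀ᶠ φ in residual F, Converges ν (x φ)) ↔
        ∀ (a : Option ℕ) (f : (Fin (dim a) → ℝ) → ℝ), Continuous f → HasCompactSupport f →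
          UniformNear x a f (∫ z, f z ∂(ν a))) ∧
      ((¬ ∀ᶠ φ in residual F, Converges ν (x φ)) →
        ∃ (a : Option ℕ) (f : (Fin (dim a) → ℝ) → ℝ), Continuous f ∧ HasCompactSupport f ∧
          ∃ ε : ℝ, 0 < ε ∧ ∃ U : Set F, IsOpen U ∧ U.Nonempty ∧ ∀ᶠ φ in residual F, φ ∈ U →
            ∃ᶠ T in atTop, ε < |statistic a f T (x φ) - ∫ z, f z ∂(ν a)|) ∧
      ((∀ᶠ φ in residual F, Converges ν (x φ)) →
        ∀ (a : Option ℕ) (f : (Fin (dim a) → ℝ) → ℝ), Continuous f → HasCompactSupport f →
          ∀ ε : ℝ, 0 < ε → IsNowhereDense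
            {φ | ∃ᶠ T in atTop, ε < |statistic a f T (x φ) - ∫ z, f z ∂(ν a)|})) ∧
    -- one statistic, limits which depend on the metric
    ∀ (a : Option ℕ) (f : (Fin (dim a) → ℝ) → ℝ), Continuous f →
      ((∀ᶠ φ in residual F, ∃ l : ℝ, Tendsto (fun T => statistic a f T (x φ)) atTop (𝓝 l)) ↔
        UniformCauchy x a f) ∧
      ∃ U₁ U₂ : Set F, IsOpen U₁ ∧ IsOpen U₂ ∧ Disjoint U₁ U₂ ∧ Dense (U₁ ∪ U₂) ∧
        (∀ᶠ φ in residual F, φ ∈ U₁ →
          ∃ l : EReal, Tendsto (fun T => (statistic a f T (x φ) : EReal)) atTop (𝓝 l)) ∧
        ∀ φ ∈ U₂, ∃ c c' : ℝ, c < c' ∧ ∃ V ∈ 𝓝 φ, ∀ᶠ ψ in residual F, ψ ∈ V → Oscillates a f c c' (x ψ) := by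
  obtain ⟨X, hX, -⟩ := exists_spectra M μ D hD F ι hι x hx
  have hS : ∀ (a : Option ℕ) (f : (Fin (dim a) → ℝ) → ℝ) (T : ℝ) (φ : F),
      S X (statL a) f T φ = statistic a f T (x φ) := by
    intro a f T φ
    rw [S_stat, hX]
  refine ⟨fun ν hν => ?_, fun a f hf => ⟨?_, ?_⟩⟩
  · have hG : ∀ φ, Good X dim statL ν φ ↔ Converges ν (x φ) := by
      intro φ
      unfold Good Converges
      simp only [hS]
    have h1 := main_iff X dim statL ν
    have h2 := main_dichotomy X dim statL ν
    simp only [hG] at h1 h2
    refine ⟨?_, ?_, ?_⟩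
    · rw [h1]
      unfold UniformNear Pool.Agent.Q205.Baire.LocUnif
      simp only [hS]
    · intro h
      have := h2 h
      simp only [hS] at this
      exact this
    · intro h a f hf hs ε hε
      have := main_nowhere X (statL a) hf hε (c := ∫ z, f z ∂(ν a)) (by
        filter_upwards [h] with φ hφ
        have := hφ a f hf hs
        simpa only [hS] using this)
      simpa only [hS] using this
  · have := cauchy_iff_generic (nice_S X (statL a) hf)
    simp only [hS] at this
    exact this
  · obtain ⟨U₁, U₂, h1, h2, h3, h4, h5, h6⟩ := alternative (fun _ : Unit => S X (statL a) f)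
      (fun _ => nice_S X (statL a) hf)
    refine ⟨U₁, U₂, h1, h2, h3, h4, ?_, ?_⟩
    · filter_upwards [h5] with φ hφ hU
      have := tendsto_ereal (hφ hU ())
      simpa only [hS] using this
    · intro φ hφ
      obtain ⟨-, c, c', hcc, V, hV, h7⟩ := h6 φ hφ
      refine ⟨c, c', hcc, V, hV, ?_⟩
      filter_upwards [h7] with ψ hψ hVψ
      have := hψ hVψ
      simp only [hS] at this
      exact this

end Pool.Agent.Results.MP_a825e8_mp.LocallyUniformStatistics
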