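import Pool.Agent.N250.SP.Surf
import Pool.Agent.N250.SP.Gap

/-!
# Limit laws of the level spacings of closed surfaces; for generic metrics a limit or a continuum of limit laws

`(M, g)` is a closed surface with a continuous Riemannian metric, `F` a topological space and `ι : F → C(M)` a continuous map,
for instance the inclusion of the space of the smooth functions `φ` for which the metric `exp φ · g` has negative curvature
and area one. The unfolded levels `x` are those of the problem; `spacing f T` is the average `(1/T) ∑_{x_k ≤ T} f(x_{k+1} - x_k)`.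
A limit law is a limit point for `T → ∞` of the distribution of the nearest neighbour spacings.

* For EVERY metric: every sequence of heights has a subsequence along which the distributions of the spacings converge to a
  limit law; the limit laws are probability measures on `[0, ∞)` with mean at most one; the set of the limit laws has the
  intermediate value property for the integrals of every bounded continuous function; either the distribution of the
  spacings converges, or there are uncountably many limit laws.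
* For generic metrics: there are disjoint open sets of metrics with dense union such that the distribution of the spacings
  converges for the generic metric of the first one, and near every metric of the second one there are a test function `f` and
  an interval `[c, c']` of which ALL points are integrals of `f` with respect to limit laws, for the generic metric.
-/

set_option autoImplicit false

open Set Filter Topology MeasureTheory
open scoped Real ContDiff
open Pool.Agent.Y262.QE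

noncomputable section

namespace Pool.Agent.Results.MP_a825e8_mp.SpacingLimitLaws

open Pool.Agent.Results.MP_a825e8_mp.SurfacesLimitStatistics (IsUnfolded number)
open Pool.Agent.Q205.Baire (Spectra LocalStat S count nice_S)
open Pool.Agent.N250.SP

/-- the average of `f` over the nearest neighbour spacings of the levels up to `T` -/
def spacing (f : ℝ → ℝ) (T : ℝ) (x : ℕ → ℝ) : ℝ :=
  (∑ k ∈ Finset.range (number T x), f (x (k + 1) - x k)) / T

/-- bounded continuous test functions -/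
def Test (f : ℝ → ℝ) : Prop := Continuous f ∧ ∃ C, ∀ s, |f s| ≤ C

/-- `ν` is a limit point, for `T → ∞`, of the distribution of the nearest neighbour spacings of `x` -/
def IsLimitLaw (x : ℕ → ℝ) (ν : Measure ℝ) : Prop :=
  IsProbabilityMeasure ν ∧ ∃ T : ℕ → ℝ, Tendsto T atTop atTop ∧
    ∀ f, Test f → Tendsto (fun n => spacing f (T n) x) atTop (𝓝 (∫ s, f s ∂ν))

theorem result (M : Type) [MetricSpace M] [CompactSpace M] [MeasurableSpace M] [BorelSpace M]
    [Nonempty M] (μ : Measure M) (D : Data M) (hD : D.IsSurf μ)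
    (F : Type) [TopologicalSpace F] (ι : F → C(M, ℝ)) (hι : Continuous ι)
    (x : F → ℕ → ℝ) (hx : ∀ φ, IsUnfolded D μ (ι φ) (x φ)) :
    -- every metric
    (∀ φ : F,
      (∀ T : ℕ → ℝ, Tendsto T atTop atTop → ∃ (ν : Measure ℝ) (θ : ℕ → ℕ), IsLimitLaw (x φ) ν ∧ StrictMono θ ∧
        ∀ f, Test f → Tendsto (fun n => spacing f (T (θ n)) (x φ)) atTop (𝓝 (∫ s, f s ∂ν))) ∧
      (∀ ν, IsLimitLaw (x φ) ν → ν (Iio 0) = 0 ∧ ∫⁻ s, ENNReal.ofReal s ∂ν ≤ 1) ∧
      (∀ ν₀ ν₁, IsLimitLaw (x φ) ν₀ → IsLimitLaw (x φ) ν₁ → ∀ f, Test f → ∀ c : ℝ, ∫ s, f s ∂ν₀ ≤ c →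
        c ≤ ∫ s, f s ∂ν₁ → ∃ ν, IsLimitLaw (x φ) ν ∧ ∫ s, f s ∂ν = c) ∧
      ((∃ ν, IsLimitLaw (x φ) ν ∧ ∀ f, Test f →
          Tendsto (fun T => spacing f T (x φ)) atTop (𝓝 (∫ s, f s ∂ν))) ∨
        ¬ {ν | IsLimitLaw (x φ) ν}.Countable)) ∧
    -- generic metrics
    ∃ U₁ U₂ : Set F, IsOpen U₁ ∧ IsOpen U₂ ∧ Disjoint U₁ U₂ ∧ Dense (U₁ ∪ U₂) ∧
      (∀ᶠ φ in residual F, φ ∈ U₁ → ∃ ν, IsLimitLaw (x φ) ν ∧ ∀ f, Test f →
        Tendsto (fun T => spacing f T (x φ)) atTop (𝓝 (∫ s, f s ∂ν))) ∧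
      ∀ φ ∈ U₂, ∃ f : ℝ → ℝ, Continuous f ∧ (∀ s, 0 ≤ f s ∧ f s ≤ 1) ∧ ∃ c c' : ℝ, c < c' ∧
        ∃ V ∈ 𝓝 φ, ∀ᶠ ψ in residual F, ψ ∈ V →
          ∀ t ∈ Icc c c', ∃ ν, IsLimitLaw (x ψ) ν ∧ ∫ s, f s ∂ν = t := by
  obtain ⟨X, hX, hcount⟩ := exists_spectra M μ D hD F ι hι x hx
  have hM : ∀ φ, MeanOne (x φ) := by
    intro φ
    refine ⟨?_, ?_, hcount φ⟩
    · rw [← hX]
      exact X.mono φ
    · rw [← hX]
      exact X.unb φ
  have hsp : ∀ (f : ℝ → ℝ) (T : ℝ) (y : ℕ → ℝ), spacing f T y = sp y f T := fun f T y => rfl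
  have hlaw : ∀ (y : ℕ → ℝ) (ν : Measure ℝ), IsLimitLaw y ν ↔ IsLaw y ν := by
    intro y ν
    unfold IsLimitLaw IsLaw Test
    simp only [hsp, and_imp]
  simp only [hsp, hlaw]
  -- a unique law gives convergence
  have huniq : ∀ φ, (∀ ν₀ ν₁, IsLaw (x φ) ν₀ → IsLaw (x φ) ν₁ → ν₀ = ν₁) →
      ∃ ν, IsLaw (x φ) ν ∧ ∀ f, Test f → Tendsto (fun T => sp (x φ) f T) atTop (𝓝 (∫ s, f s ∂ν)) := by
    intro φ h
    obtain ⟨ν, θ, hν, hθ, hlim⟩ := exists_law (hM φ) (T := fun n : ℕ => (n : ℝ)) tendsto_natCast_atTop_atTop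
    have hl : IsLaw (x φ) ν := ⟨hν, fun n => ((θ n : ℕ) : ℝ), tendsto_natCast_atTop_atTop.comp hθ.tendsto_atTop, hlim⟩
    exact ⟨ν, hl, fun f hf => converge (hM φ) (fun ν' hν' => h ν' ν hν' hl) hf.1 hf.2⟩
  refine ⟨fun φ => ⟨?_, ?_, ?_, ?_⟩, ?_⟩
  · intro T hT
    obtain ⟨ν, θ, hν, hθ, hlim⟩ := exists_law (hM φ) hT
    exact ⟨ν, θ, ⟨hν, fun n => T (θ n), hT.comp hθ.tendsto_atTop, hlim⟩, hθ, fun f hf => hlim f hf.1 hf.2⟩
  · intro ν hν
    exact ⟨law_neg (hM φ) hν, law_mean (hM φ) hν⟩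
  · rintro ν₀ ν₁ h0 h1 f ⟨hf, C, hC⟩ c hc0 hc1
    exact law_between (hM φ) hf hC h0 h1 hc0 hc1
  · by_cases h : ∀ ν₀ ν₁, IsLaw (x φ) ν₀ → IsLaw (x φ) ν₁ → ν₀ = ν₁
    · exact Or.inl (huniq φ h)
    · push Not at h
      obtain ⟨ν₀, ν₁, h0, h1, hne⟩ := h
      exact Or.inr (uncountable (hM φ) h0 h1 hne)
  · let L : LocalStat ℝ :=
      { ι := ℕ
        I := fun N => Finset.range N
        φ := fun k y => y (k + 1) - y k
        cont := fun k => by fun_prop }
    have hS : ∀ (f : ℝ → ℝ) (T : ℝ) (φ : F), S X L f T φ = sp (x φ) f T := by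
      intro f T φ
      rw [← hX]
      rfl
    obtain ⟨U₁, U₂, h1, h2, h3, h4, h5, h6⟩ := alternative (fun p : ℚ × ℕ => S X L (tst p))
      (fun p => nice_S X L (tst_cont p))
    refine ⟨U₁, U₂, h1, h2, h3, h4, ?_, ?_⟩
    · filter_upwards [h5] with φ hφ hU
      refine huniq φ fun ν₀ ν₁ h0 h1 => ?_
      have := h0.1
      have := h1.1
      refine ext_tst fun p => ?_
      have h7 := hφ hU p
      simp only [hS] at h7
      have hb : ∀ᶠ T in atTop, |sp (x φ) (tst p) T| ≤ 2 := by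
        have h8 := (hM φ).count
        filter_upwards [eventually_gt_atTop (0 : ℝ), h8.eventually (gt_mem_nhds (by norm_num : (1 : ℝ) < 2))] with T hT hT2
        have h9 := A_bound (y := x φ) (tst_abs p) 0 (num (x φ) T) (Nat.zero_le _)
        have h10 : A (x φ) (tst p) 0 = 0 := by simp [A]
        rw [h10, sub_zero, Nat.cast_zero, sub_zero, one_mul] at h9
        unfold sp
        rw [abs_div, abs_of_pos hT]
        calc |A (x φ) (tst p) (num (x φ) T)| / T ≤ (num (x φ) T : ℝ) / T := by gcongr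
          _ ≤ 2 := hT2.le
      obtain ⟨l, hl⟩ := tendsto_real h7 hb
      obtain ⟨-, T0, hT0, hl0⟩ := h0
      obtain ⟨-, T1, hT1, hl1⟩ := h1
      have e0 := tendsto_nhds_unique (hl0 _ (tst_cont p) ⟨1, tst_abs p⟩) (hl.comp hT0)
      have e1 := tendsto_nhds_unique (hl1 _ (tst_cont p) ⟨1, tst_abs p⟩) (hl.comp hT1)
      rw [e0, e1]
    · intro φ hφ
      obtain ⟨p, c, c', hcc, V, hV, h7⟩ := h6 φ hφ
      refine ⟨tst p, tst_cont p, fun s => ⟨tst_nonneg p s, tst_le p s⟩, c, c', hcc, V, hV, ?_⟩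
      filter_upwards [h7] with ψ hψ hVψ t ht
      have h8 := hψ hVψ
      simp only [hS] at h8
      obtain ⟨ν₀, h0, he0⟩ := law_le (hM ψ) (tst_cont p) (tst_abs p) h8.1
      obtain ⟨ν₁, h1, he1⟩ := law_ge (hM ψ) (tst_cont p) (tst_abs p) h8.2
      exact law_between (hM ψ) (tst_cont p) (tst_abs p) h0 h1 (he0.trans ht.1) (ht.2.trans he1)

end Pool.Agent.Results.MP_a825e8_mp.SpacingLimitLaws
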